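import Mathlib
import Pool.Agent.X213.Forms
import Pool.Agent.X213.Block

set_option autoImplicit false

/-!
# Prime divisors with `h¹ ≠ 0`: the standard form is not decided by blocks, clusters, doubling

The class `(d; w)` is `DecidedClass` (`Pool.Agent.X213.Block.DecidedClass`) if the multiset of its
multiplicities and `d` are in one of the two least relations `E = Decided false` (emptiness) and
`I = Decided true` (independence) which are closed under:
* blocks (`EmptyRange`, `IndepRange`): the multiset is (for `E`: contains) the sum of `r < K ^ 2`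
  multisets whose sums and sizes satisfy an inequality;
* clusters: a member `b` is replaced by the four numbers `⌊(2 b + j) / 4⌋`, `j = -1, 0, 1, 2`;
* doubling: `I` for `M + a {b}` and `E` for `M + a {b + 1}` in degree `d` decide the degree `d`
  for `M + a {⌊b / 2⌋, ⌊b / 2⌋, ⌊(b + 1) / 2⌋, ⌊(b + 1) / 2⌋}`;
* monotonicity.

Let `k` be a field of characteristic zero and `X` the blow-up of the plane at `s ≥ 4` generic
points. Let `C` be a prime divisor of class `(d, w)` on `X`. Then `h¹ (C) = 0`, or finitely many
quadratic transformations carry `(d, w)` to a standard class `(d1, w1)` with `h⁰ (d1, w1) = h⁰ (C)`,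
which is special and not `DecidedClass`.
-/

namespace Pool.Agent.Results.MP_0dccba_ag.BlockForms

open MvPolynomial Pool.Agent.TH167.SHDefs
open Pool.Agent.Y536.SH (Standard)
open Pool.Agent.X213.Block (DecidedClass)

/-- `h¹` of the class `d H - ∑ w i E i`: the dimension of the linear system minus the virtual one. -/
noncomputable def hOne {k : Type} [Field k] {s : ℕ} (P : Fin s → Fin 2 → k) (d : ℕ)
    (w : Fin s → ℕ) : ℤ := dimL P d w - virtdim d w

theorem result (k : Type) [Field k] [CharZero k] (r : ℕ) (P : Fin (r + 4) → Fin 2 → k)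
    (hP : AlgebraicIndependent ℚ (fun ij : Fin (r + 4) × Fin 2 => P ij.1 ij.2))
    (d : ℕ) (w : Fin (r + 4) → ℕ) (C : MvPolynomial (Fin 3) k) (hC : Curve P C d w) :
    hOne P d w = 0 ∨ ∃ (d1 : ℕ) (w1 : Fin (r + 4) → ℕ),
      Relation.ReflTransGen Quadratic (d, w) (d1, w1) ∧ Standard d1 w1 ∧
      Special P d1 w1 ∧ dimL P d1 w1 = dimL P d w ∧ ¬ DecidedClass d1 w1 :=
  Pool.Agent.X213.Forms.prime (Q := fun d' w' => DecidedClass d' w')
    (fun _ _ _ _ hP _ _ _ hG => Pool.Agent.X213.Block.exp_of_decided hG hP) hP hC

end Pool.Agent.Results.MP_0dccba_ag.BlockForms
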