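import Mathlib
import Pool.Agent.X213.Forms
import Pool.Agent.X213.EngB

set_option autoImplicit false

/-!
# Prime divisors with `h¹ ≠ 0`: conditions of order `m ^ 3` on the standard form

The class `(d; w)` is `Cubic` (`Pool.Agent.X213.EngB.Cubic`) if for some `1 ≤ k ≤ m` all `w i ≤ m`; for
every `i` with `w i > k` the points of smaller multiplicities (`≥ 2`, or `≥ 1` if `k = 1`) satisfy
`2 w i (w i + 1) (w i + 2) ≤ ∑ w j (w j + 1)` (no condition if `k = m`);
`m (m + 1) (m + 6 √m + 10) ≤ max ((d + 1) (d + 2)) A`, where `A = ∑ (w i + 1).choose 2`; and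
`|(d + 2).choose 2 - A| ≥ 2 (k + 1).choose 3` (where simple points need not be counted in `A` on the
side of independence), or no multiplicity lies strictly between `1` and `k`.

Let `k` be a field of characteristic zero and `X` the blow-up of the plane at `s ≥ 4` generic
points. Let `C` be a prime divisor of class `(d, w)` on `X`. Then `h¹ (C) = 0`, or finitely many
quadratic transformations carry `(d, w)` to a standard class `(d1, w1)` with `h⁰ (d1, w1) = h⁰ (C)`,
which is special and not `Cubic`.
-/

namespace Pool.Agent.Results.MP_0dccba_ag.CubicForms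

open MvPolynomial Pool.Agent.TH167.SHDefs
open Pool.Agent.Y536.SH (Standard)
open Pool.Agent.X213.EngB (Cubic)

/-- `h¹` of the class `d H - ∑ w i E i`: the dimension of the linear system minus the virtual one. -/
noncomputable def hOne {k : Type} [Field k] {s : ℕ} (P : Fin s → Fin 2 → k) (d : ℕ)
    (w : Fin s → ℕ) : ℤ := dimL P d w - virtdim d w

theorem result (k : Type) [Field k] [CharZero k] (r : ℕ) (P : Fin (r + 4) → Fin 2 → k)
    (hP : AlgebraicIndependent ℚ (fun ij : Fin (r + 4) × Fin 2 => P ij.1 ij.2))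
    (d : ℕ) (w : Fin (r + 4) → ℕ) (C : MvPolynomial (Fin 3) k) (hC : Curve P C d w) :
    hOne P d w = 0 ∨ ∃ (d1 : ℕ) (w1 : Fin (r + 4) → ℕ),
      Relation.ReflTransGen Quadratic (d, w) (d1, w1) ∧ Standard d1 w1 ∧
      Special P d1 w1 ∧ dimL P d1 w1 = dimL P d w ∧ ¬ Cubic d1 w1 :=
  Pool.Agent.X213.Forms.prime (Q := fun d' w' => Cubic d' w')
    (fun _ _ _ _ hP _ _ _ hG => Pool.Agent.X213.EngB.cubic_exp hG hP) hP hC

end Pool.Agent.Results.MP_0dccba_ag.CubicForms
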