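import Mathlib
import Pool.Agent.X213.Forms
import Pool.Agent.X213.Eng4

set_option autoImplicit false

/-!
# Prime divisors with `h¹ ≠ 0` are controlled by the fourth largest multiplicity of their standard form

The class `(d; w)` is `Far` (`Pool.Agent.X213.Eng4.Far`) if its multiplicities `v 0 ≥ v 1 ≥ ⋯` in
decreasing order satisfy one of the following conditions:
* `v 3 = 0`, or `2 (v 3) ^ 2 + 3 v 3 + 2 ≤ v 2`;
* `2 ^ 17 (v 3 + 1) ^ 4 + ∑_{i < 3} v i (v i + 1) ≤ (d + 1) (d + 2)`, or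
  `2 ^ 17 (v 3 + 1) ^ 4 ≤ ∑_{i ≥ 3} (v i + 1).choose 2`;
* `v i ≤ m` for all `i ≥ 5`, where `m ≥ 1`, and `4 m ^ 2 + 8 m + 5 ≤ v 2`, or one of the two
  inequalities before with `4 m ^ 2 + 8 m + 5` instead of `v 3 + 1`.

Let `k` be a field of characteristic zero and `X` the blow-up of the plane at `s ≥ 4` generic
points. Let `C` be a prime divisor of class `(d, w)` on `X`. Then `h¹ (C) = 0`, or finitely many
quadratic transformations carry `(d, w)` to a standard class `(d1, w1)` with `h⁰ (d1, w1) = h⁰ (C)`,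
which is special and not `Far`.
-/

namespace Pool.Agent.Results.MP_0dccba_ag.FourthMultiplicityForms

open MvPolynomial Pool.Agent.TH167.SHDefs
open Pool.Agent.Y536.SH (Standard)
open Pool.Agent.X213.Eng4 (Far)

/-- `h¹` of the class `d H - ∑ w i E i`: the dimension of the linear system minus the virtual one. -/
noncomputable def hOne {k : Type} [Field k] {s : ℕ} (P : Fin s → Fin 2 → k) (d : ℕ)
    (w : Fin s → ℕ) : ℤ := dimL P d w - virtdim d w

theorem result (k : Type) [Field k] [CharZero k] (r : ℕ) (P : Fin (r + 4) → Fin 2 → k)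
    (hP : AlgebraicIndependent ℚ (fun ij : Fin (r + 4) × Fin 2 => P ij.1 ij.2))
    (d : ℕ) (w : Fin (r + 4) → ℕ) (C : MvPolynomial (Fin 3) k) (hC : Curve P C d w) :
    hOne P d w = 0 ∨ ∃ (d1 : ℕ) (w1 : Fin (r + 4) → ℕ),
      Relation.ReflTransGen Quadratic (d, w) (d1, w1) ∧ Standard d1 w1 ∧
      Special P d1 w1 ∧ dimL P d1 w1 = dimL P d w ∧ ¬ Far d1 w1 :=
  Pool.Agent.X213.Forms.prime (Q := fun d' w' => Far d' w')
    (fun _ _ _ _ hP _ _ hs hG => Pool.Agent.X213.Eng4.far_exp hs hG hP) hP hC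

end Pool.Agent.Results.MP_0dccba_ag.FourthMultiplicityForms
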