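import Mathlib
import Pool.Agent.TH442.NF.Std
import Pool.Agent.X214.NV.Dom

set_option autoImplicit false

/-!
# Prime divisors with a near-uniform class in their Weyl group orbit have vanishing `h¹`

Let `k` be a field of characteristic zero, `X` the blow-up of the plane at `s` generic points and `C`
a prime divisor of class `d H - ∑ w i E i`. Assume that quadratic transformations carry this class to
a standard class `d' H - ∑ w' i E i` with the following property: there are a set `S` of at least
`36` of the points, and a vector `v` which takes only the values `m`, `m + 1` (`m ≥ 1` arbitrary) on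
`S`, such that `w' ≤ v` on `S`, `w' ≤ 1` off `S`, and `w' = v` on `S` or
`∑ (v i + 1).choose 2 ≤ (d' + 2).choose 2` (sum over `S`). Then `h¹(C) = 0`.
-/

namespace Pool.Agent.Results.MP_0dccba_ag.NearUniformOrbits

open MvPolynomial Pool.Agent.TH167.SHDefs Pool.Agent.X214.NV

/-- `h¹` of the class `d H - ∑ w i E i`: the dimension of the linear system minus the virtual one. -/
noncomputable def hOne {k : Type} [Field k] {s : ℕ} (P : Fin s → Fin 2 → k) (d : ℕ)
    (w : Fin s → ℕ) : ℤ := dimL P d w - virtdim d w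

/-- The reflection of the class `a = (d; w)`, `d H - ∑ w l E l`, in the class
`H - E (i 0) - E (i 1) - E (i 2)`: with `δ = d - w (i 0) - w (i 1) - w (i 2)`, the numbers
`d`, `w (i 0)`, `w (i 1)`, `w (i 2)` are increased by `δ`. -/
def reflect {n : ℕ} (i : Fin 3 → Fin n) (a : ℤ × (Fin n → ℤ)) : ℤ × (Fin n → ℤ) :=
  (a.1 + (a.1 - a.2 (i 0) - a.2 (i 1) - a.2 (i 2)),
    fun l => a.2 l + if l = i 0 ∨ l = i 1 ∨ l = i 2 then a.1 - a.2 (i 0) - a.2 (i 1) - a.2 (i 2)
      else 0)

/-- Finitely many reflections carry `(d; w)` to `(d'; w')`. -/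
def Carries {n : ℕ} (d : ℕ) (w : Fin n → ℕ) (d' : ℕ) (w' : Fin n → ℕ) : Prop :=
  Relation.ReflTransGen
    (fun a b : ℤ × (Fin n → ℤ) => ∃ i : Fin 3 → Fin n, Function.Injective i ∧ b = reflect i a)
    ((d : ℤ), fun l => (w l : ℤ)) ((d' : ℤ), fun l => (w' l : ℤ))

/-- The class is standard. -/
def Standard {n : ℕ} (d : ℕ) (w : Fin n → ℕ) : Prop :=
  ∀ i j k : Fin n, i ≠ j → i ≠ k → j ≠ k → w i + w j + w k ≤ d

theorem result : ∀ (k : Type) [Field k] [CharZero k] (s d d' : ℕ) (w w' : Fin s → ℕ)
    (P : Fin s → Fin 2 → k), AlgebraicIndependent ℚ (fun ij : Fin s × Fin 2 => P ij.1 ij.2) →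
    Carries d w d' w' → Standard d' w' → Dominated d' w' →
    ∀ C : MvPolynomial (Fin 3) k, Curve P C d w → hOne P d w = 0 := by
  intro k _ _ s d d' w w' P hP hc hs hD C hC
  have h36 : 36 ≤ s := by
    obtain ⟨S, v, h1, -⟩ := hD
    have h2 := h1.m15
    have h3 := Finset.card_le_univ S
    rw [Fintype.card_fin] at h3
    omega
  have h1 : Pool.Agent.H932R3.ExpDim k w P d :=
    Pool.Agent.TH442.NF.up_enef hP hc (Pool.Agent.TH442.NF.enef_of_std (by omega) P hs)
      (dom_exp hD hP)
  have hCm : C ∈ sys P d w := by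
    unfold sys
    rw [Submodule.mem_inf, mem_homogeneousSubmodule, Submodule.restrictScalars_mem,
      Ideal.mem_iInf]
    exact ⟨hC.homogeneous, fun i => (hC.mult i).1⟩
  have h2 : Module.finrank k ↥(sys P d w) + ∑ i, (w i + 1).choose 2 = (d + 2).choose 2 := by
    have h3 := hCm
    unfold sys at h3
    rw [Submodule.mem_inf, mem_homogeneousSubmodule, Submodule.restrictScalars_mem,
      Ideal.mem_iInf] at h3
    exact h1.eff hC.irreducible.ne_zero h3.1 h3.2
  unfold hOne dimL virtdim
  have h4 : ∑ i, ((w i + 1).choose 2 : ℤ) = ((∑ i, (w i + 1).choose 2 : ℕ) : ℤ) := by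
    push_cast
    rfl
  rw [h4]
  omega

end Pool.Agent.Results.MP_0dccba_ag.NearUniformOrbits
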